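import Pool.Agent.W_7d29a1_KZ.VarK62

/-!
The lower tail of the free energy is dominated by the first moment, and the variance by the
square of the positive part (laws with the Ehrhard property).
-/

set_option autoImplicit false

namespace Pool.Agent.W_7d29a1_KZ.L62

open MeasureTheory ProbabilityTheory Filter Topology Pool.Agent.W_MP_7d29a1_pr
  Pool.Agent.W_7d29a1_h46 Pool.Agent.W_7d29a1_h46u Pool.Agent.W_7d29a1_D2.B35
  Pool.Agent.W_7d29a1_Q29 Pool.Agent.W_7d29a1_R34 Pool.Agent.W_7d29a1_SP Pool.Agent.W_7d29a1_SD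
  Pool.Agent.W_7d29a1_SQ

variable {d : ℕ} {ρ : Measure ℝ} {β : ℝ}

/-- The second moment of the negative part is at most a constant times the square of the first
absolute moment. -/
theorem lowF62 [IsProbabilityMeasure ρ] (hd : 0 < d) (hρ : EM ρ) (hE : EhlP d ρ β)
    (h : Vec d) (m : ℕ) :
    ∫ η, max (-(X β h η m - A ρ β h m)) 0 ^ 2 ∂(law d ρ) ≤
      (1 + 2 * 34 ^ 2) * Fn ρ β h m ^ 2 := by
  have hF0 : 0 ≤ Fn ρ β h m := Fn_nonneg15 β h m
  have hmeas : Measurable fun η : Env d => X β h η m - A ρ β h m :=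
    (measurable_X β h m).sub_const _
  have hsq := N85.Va_int (ρ := ρ) hd hρ β h m
  have hint : Integrable (fun η : Env d => X β h η m - A ρ β h m) (law d ρ) :=
    intX15 (ρ := ρ) hd hρ β h m
  rcases hF0.eq_or_lt with hz | hpos
  · -- the degenerate case
    have h1 : (fun η : Env d => |X β h η m - A ρ β h m|) =ᵐ[law d ρ] 0 := by
      rw [← integral_eq_zero_iff_of_nonneg (fun _ => abs_nonneg _) hint.abs]
      exact hz.symm
    have h2 : ∫ η, max (-(X β h η m - A ρ β h m)) 0 ^ 2 ∂(law d ρ) = 0 := by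
      refine integral_eq_zero_of_ae ?_
      filter_upwards [h1] with η hη
      have h3 : X β h η m - A ρ β h m = 0 := abs_eq_zero.mp hη
      show max (-(X β h η m - A ρ β h m)) 0 ^ 2 = 0
      rw [h3]
      norm_num
    rw [h2, ← hz]
    norm_num
  set P := Fn ρ β h m with hP
  have hP0 : 0 < P := hpos
  have hs0 : (law d ρ).real {η | X β h η m ≤ A ρ β h m - 2 * P} ≤ 1 / 2 := by
    refine (measureReal_mono (s₂ := {η | 2 * P ≤ |X β h η m - A ρ β h m|}) ?_).trans
      ((mkF62 hd hρ h m (show 0 < 2 * P by positivity)).trans ?_)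
    · intro η hη
      have h3 : X β h η m ≤ A ρ β h m - 2 * P := hη
      show 2 * P ≤ |X β h η m - A ρ β h m|
      rw [abs_of_nonpos (by linarith)]
      linarith
    · rw [div_le_iff₀ (by positivity)]
      linarith
  have hs1 : (law d ρ).real {η | A ρ β h m + 5 * P < X β h η m} ≤ 1 / 5 := by
    refine (measureReal_mono (s₂ := {η | 5 * P ≤ |X β h η m - A ρ β h m|}) ?_).trans
      ((mkF62 hd hρ h m (show 0 < 5 * P by positivity)).trans ?_)
    · intro η hη
      have h3 : A ρ β h m + 5 * P < X β h η m := hη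
      show 5 * P ≤ |X β h η m - A ρ β h m|
      rw [abs_of_nonneg (by linarith)]
      linarith
    · rw [div_le_iff₀ (by positivity)]
      linarith
  have hlow := E62.sqp (μ := law d ρ) hmeas.neg (by
      refine hsq.congr (Eventually.of_forall fun η => ?_)
      show (X β h η m - A ρ β h m) ^ 2 = (-(X β h η m - A ρ β h m)) ^ 2
      ring) (P := 34 * P) (b := 4) (by positivity) (by norm_num)
    fun x hx => by
      have hx0 : 0 < x := lt_of_lt_of_le (by positivity) hx
      have h1 := hE h m (A ρ β h m - 2 * P) (A ρ β h m + 5 * P) ((x - 2 * P) / (7 * P))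
        (div_nonneg (by linarith) (by positivity)) (by linarith) hs0 hs1
      have e1 : A ρ β h m - 2 * P - (x - 2 * P) / (7 * P) *
          (A ρ β h m + 5 * P - (A ρ β h m - 2 * P)) = A ρ β h m - x := by
        have : (x - 2 * P) / (7 * P) * (A ρ β h m + 5 * P - (A ρ β h m - 2 * P)) = x - 2 * P := by
          field_simp
          ring
        rw [this]
        ring
      rw [e1] at h1
      have e2 : {w : Env d | x ≤ -(X β h w m - A ρ β h m)} = {η | X β h η m ≤ A ρ β h m - x} := by
        ext w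
        simp only [Set.mem_ofPred_eq]
        constructor <;> intro h3 <;> linarith
      have e3 : {w : Env d | x ≤ (-fun η : Env d => X β h η m - A ρ β h m) w} =
          {w : Env d | x ≤ -(X β h w m - A ρ β h m)} := rfl
      rw [e3, e2]
      refine h1.trans ?_
      set t := (x - 2 * P) / (7 * P) with ht
      have ht1 : x / (14 * P) ≤ t := by
        rw [ht, div_le_div_iff₀ (by positivity) (by positivity)]
        nlinarith
      have ht0 : 0 < x / (14 * P) := by positivity
      have htp : 0 < t := ht0.trans_le ht1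
      have h4 : Real.exp (-(t ^ 2 / 4)) ≤ 32 / t ^ 4 := by
        have h5 : (t ^ 2 / 4) ^ 2 / 2 ≤ Real.exp (t ^ 2 / 4) := by
          have := Real.quadratic_le_exp_of_nonneg (show 0 ≤ t ^ 2 / 4 by positivity)
          nlinarith [sq_nonneg t]
        rw [Real.exp_neg, inv_eq_one_div, div_le_div_iff₀ (Real.exp_pos _) (by positivity)]
        nlinarith
      refine h4.trans ?_
      have h6 : 32 / t ^ 4 ≤ 32 / (x / (14 * P)) ^ 4 := by gcongr
      refine h6.trans ?_
      have e4 : (34 * P / x) ^ (4 : ℝ) = (34 * P / x) ^ (4 : ℕ) := by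
        rw [← Real.rpow_natCast]
        norm_num
      rw [e4]
      have e5 : 32 / (x / (14 * P)) ^ 4 = 32 * 14 ^ 4 * (P / x) ^ 4 := by
        field_simp
      have e6 : (34 * P / x) ^ 4 = 34 ^ 4 * (P / x) ^ 4 := by
        rw [mul_div_assoc, mul_pow]
      rw [e5, e6]
      refine mul_le_mul_of_nonneg_right (by norm_num) (by positivity)
  have e8 : (4 : ℝ) / (4 - 2) * (34 * P) ^ 2 = 2 * 34 ^ 2 * P ^ 2 := by ring
  rw [e8] at hlow
  have e9 : ∫ η, max ((-fun η : Env d => X β h η m - A ρ β h m) η) 0 ^ 2 ∂(law d ρ) =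
      ∫ η, max (-(X β h η m - A ρ β h m)) 0 ^ 2 ∂(law d ρ) := rfl
  rw [e9] at hlow
  have hPP : 0 ≤ P ^ 2 := sq_nonneg P
  linarith

/-- Integrability of the two squares. -/
lemma pos_int62 [IsProbabilityMeasure ρ] (hd : 0 < d) (hρ : EM ρ) (h : Vec d) (m : ℕ) :
    Integrable (fun η => max (X β h η m - A ρ β h m) 0 ^ 2) (law d ρ) ∧
      Integrable (fun η => max (-(X β h η m - A ρ β h m)) 0 ^ 2) (law d ρ) := by
  have hmeas : Measurable fun η : Env d => X β h η m - A ρ β h m :=
    (measurable_X β h m).sub_const _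
  have hsq := N85.Va_int (ρ := ρ) hd hρ β h m
  refine ⟨?_, ?_⟩
  · refine hsq.mono ((hmeas.max measurable_const).pow_const 2).aestronglyMeasurable
      (Eventually.of_forall fun w => ?_)
    rw [Real.norm_eq_abs, Real.norm_eq_abs, abs_of_nonneg (sq_nonneg _),
      abs_of_nonneg (sq_nonneg _)]
    rcases le_total (X β h w m - A ρ β h m) 0 with h3 | h3
    · rw [max_eq_right h3]
      nlinarith [sq_nonneg (X β h w m - A ρ β h m)]
    · rw [max_eq_left h3]
  · refine hsq.mono ((hmeas.neg.max measurable_const).pow_const 2).aestronglyMeasurable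
      (Eventually.of_forall fun w => ?_)
    rw [Real.norm_eq_abs, Real.norm_eq_abs, abs_of_nonneg (sq_nonneg _),
      abs_of_nonneg (sq_nonneg _)]
    show max (-(X β h w m - A ρ β h m)) 0 ^ 2 ≤ _
    rcases le_total (-(X β h w m - A ρ β h m)) 0 with h3 | h3
    · rw [max_eq_right h3]
      nlinarith [sq_nonneg (X β h w m - A ρ β h m)]
    · rw [max_eq_left h3]
      nlinarith

/-- The variance is the sum of the two squares. -/
lemma va_split62 [IsProbabilityMeasure ρ] (hd : 0 < d) (hρ : EM ρ) (h : Vec d) (m : ℕ) :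
    Va ρ β h m = ∫ η, max (X β h η m - A ρ β h m) 0 ^ 2 ∂(law d ρ) +
      ∫ η, max (-(X β h η m - A ρ β h m)) 0 ^ 2 ∂(law d ρ) := by
  obtain ⟨i1, i2⟩ := pos_int62 (ρ := ρ) (β := β) hd hρ h m
  rw [← integral_add i1 i2]
  unfold Va
  refine integral_congr_ae (Eventually.of_forall fun η => ?_)
  show (X β h η m - A ρ β h m) ^ 2 = max (X β h η m - A ρ β h m) 0 ^ 2 +
    max (-(X β h η m - A ρ β h m)) 0 ^ 2
  rcases le_total (X β h η m - A ρ β h m) 0 with h3 | h3
  · rw [max_eq_right h3, max_eq_left (by linarith : 0 ≤ -(X β h η m - A ρ β h m))]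
    ring
  · rw [max_eq_left h3, max_eq_right (by linarith : -(X β h η m - A ρ β h m) ≤ 0)]
    ring

/-- `Fn ≤ 2 (E Y₊²)^(1/2)`, squared. -/
lemma Fn_sq_le62 [IsProbabilityMeasure ρ] (hd : 0 < d) (hρ : EM ρ) (h : Vec d) (m : ℕ) :
    Fn ρ β h m ^ 2 ≤ 4 * ∫ η, max (X β h η m - A ρ β h m) 0 ^ 2 ∂(law d ρ) := by
  have hint : Integrable (fun η : Env d => X β h η m - A ρ β h m) (law d ρ) :=
    intX15 (ρ := ρ) hd hρ β h m
  have hXint : Integrable (fun η : Env d => X β h η m) (law d ρ) := by
    have := hint.add (integrable_const (A ρ β h m))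
    refine this.congr (Eventually.of_forall fun η => ?_)
    simp
  have hmean : ∫ η, (X β h η m - A ρ β h m) ∂(law d ρ) = 0 := by
    rw [integral_sub hXint (integrable_const _)]
    simp [A]
  have hmax : Integrable (fun η : Env d => max (X β h η m - A ρ β h m) 0) (law d ρ) :=
    hint.pos_part
  have h1 : Fn ρ β h m = 2 * ∫ η, max (X β h η m - A ρ β h m) 0 ∂(law d ρ) := by
    have h2 : Fn ρ β h m = ∫ η, (2 * max (X β h η m - A ρ β h m) 0 -
        (X β h η m - A ρ β h m)) ∂(law d ρ) := by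
      unfold Fn
      refine integral_congr_ae (Eventually.of_forall fun η => ?_)
      show |X β h η m - A ρ β h m| = 2 * max (X β h η m - A ρ β h m) 0 -
        (X β h η m - A ρ β h m)
      rcases le_total (X β h η m - A ρ β h m) 0 with h3 | h3
      · rw [abs_of_nonpos h3, max_eq_right h3]
        ring
      · rw [abs_of_nonneg h3, max_eq_left h3]
        ring
    rw [h2, integral_sub (hmax.const_mul 2) hint, hmean, integral_const_mul]
    ring
  obtain ⟨i1, -⟩ := pos_int62 (ρ := ρ) (β := β) hd hρ h m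
  have h4 : (∫ η, max (X β h η m - A ρ β h m) 0 ∂(law d ρ)) ^ 2 ≤
      ∫ η, max (X β h η m - A ρ β h m) 0 ^ 2 ∂(law d ρ) := by
    set I := ∫ η, max (X β h η m - A ρ β h m) 0 ∂(law d ρ) with hI
    have h5 : 0 ≤ ∫ η, (max (X β h η m - A ρ β h m) 0 - I) ^ 2 ∂(law d ρ) :=
      integral_nonneg fun _ => sq_nonneg _
    have h6 : ∫ η, (max (X β h η m - A ρ β h m) 0 - I) ^ 2 ∂(law d ρ) =
        ∫ η, max (X β h η m - A ρ β h m) 0 ^ 2 ∂(law d ρ) - 2 * I * I + I ^ 2 := by
      have e : (fun η => (max (X β h η m - A ρ β h m) 0 - I) ^ 2) = fun η =>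
          (max (X β h η m - A ρ β h m) 0 ^ 2 - 2 * I * max (X β h η m - A ρ β h m) 0) +
            I ^ 2 := by
        funext η
        ring
      have i3 : Integrable (fun η : Env d => 2 * I * max (X β h η m - A ρ β h m) 0) (law d ρ) :=
        hmax.const_mul _
      have i4 : Integrable (fun η : Env d => max (X β h η m - A ρ β h m) 0 ^ 2 -
          2 * I * max (X β h η m - A ρ β h m) 0) (law d ρ) := i1.sub i3
      rw [e, integral_add i4 (integrable_const _), integral_sub i1 i3, integral_const_mul, ← hI]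
      simp
    rw [h6] at h5
    nlinarith
  rw [h1]
  nlinarith

/-- **The variance is at most a constant times the square of the positive part.** -/
theorem lowS62 [IsProbabilityMeasure ρ] (hd : 0 < d) (hρ : EM ρ) (hE : EhlP d ρ β)
    (h : Vec d) (m : ℕ) :
    Va ρ β h m ≤ (1 + 4 * (1 + 2 * 34 ^ 2)) *
      ∫ η, max (X β h η m - A ρ β h m) 0 ^ 2 ∂(law d ρ) := by
  have h1 := va_split62 (ρ := ρ) (β := β) hd hρ h m
  have h2 := lowF62 (ρ := ρ) (β := β) hd hρ hE h m
  have h3 := Fn_sq_le62 (ρ := ρ) (β := β) hd hρ h m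
  rw [h1]
  nlinarith

end Pool.Agent.W_7d29a1_KZ.L62
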